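import Pool.Agent.Helper83.HL.St

/-!
Project HL (MP_8be7de_nt), module I.
-/

set_option autoImplicit false

namespace Pool.Agent.Helper84.HL

open Pool.Agent.Helper83.HL
open Classical

theorem psi_mono {N N' m : ℕ} (h : N ≤ N') : Psi N m ≤ Psi N' m :=
  Finset.card_le_card (Finset.filter_subset_filter _ (Finset.Icc_subset_Icc_right h))

theorem psi_self (m : ℕ) : m ≤ Psi m m := by
  unfold Psi
  rw [Finset.filter_true_of_mem, Nat.card_Icc]
  · omega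
  · intro n hn p _ hpn
    rw [Finset.mem_Icc] at hn
    exact (Nat.le_of_dvd hn.1 hpn).trans hn.2

theorem geo {J : Finset ℕ} {j₀ : ℕ} (h : ∀ j ∈ J, j₀ ≤ j) :
    ∑ j ∈ J, (1 / 2 : ℝ) ^ j ≤ 2 * (1 / 2) ^ j₀ := by
  have h1 : ∀ n : ℕ, ∑ i ∈ Finset.range n, (1 / 2 : ℝ) ^ i ≤ 2 := by
    intro n
    exact (Summable.sum_le_tsum _ (fun i _ => by positivity) summable_geometric_two).trans
      tsum_geometric_two.le
  calc ∑ j ∈ J, (1 / 2 : ℝ) ^ j
      ≤ ∑ j ∈ (Finset.range (J.sup id + 1)).image (fun i => j₀ + i), (1 / 2 : ℝ) ^ j := by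
        refine Finset.sum_le_sum_of_subset_of_nonneg ?_ (fun _ _ _ => by positivity)
        intro j hj
        rw [Finset.mem_image]
        refine ⟨j - j₀, ?_, by have := h j hj; omega⟩
        rw [Finset.mem_range]
        have : j ≤ J.sup id := Finset.le_sup (f := id) hj
        omega
    _ = ∑ i ∈ Finset.range (J.sup id + 1), (1 / 2 : ℝ) ^ (j₀ + i) :=
        Finset.sum_image (fun a _ b _ hab => by simpa using hab)
    _ = (1 / 2) ^ j₀ * ∑ i ∈ Finset.range (J.sup id + 1), (1 / 2 : ℝ) ^ i := by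
        rw [Finset.mul_sum]
        exact Finset.sum_congr rfl fun i _ => pow_add _ _ _
    _ ≤ (1 / 2) ^ j₀ * 2 := mul_le_mul_of_nonneg_left (h1 _) (by positivity)
    _ = _ := by ring

theorem pow8 (k : ℕ) (hk : 8 ≤ k) : (k : ℝ) ^ 8 ≤ 8 ^ 8 * 4 ^ (k - 8) := by
  induction k, hk using Nat.le_induction with
  | base => norm_num
  | succ n hn ih =>
    have e : n + 1 - 8 = (n - 8) + 1 := by omega
    rw [e, pow_succ]
    push_cast
    have hn' : (8 : ℝ) ≤ n := by exact_mod_cast hn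
    have h1 : (n : ℝ) + 1 ≤ 9 / 8 * n := by linarith
    calc ((n : ℝ) + 1) ^ 8 ≤ (9 / 8 * n) ^ 8 := pow_le_pow_left₀ (by positivity) h1 8
      _ = (9 / 8) ^ 8 * (n : ℝ) ^ 8 := by ring
      _ ≤ 4 * (n : ℝ) ^ 8 := mul_le_mul_of_nonneg_right (by norm_num) (by positivity)
      _ ≤ 4 * (8 ^ 8 * 4 ^ (n - 8)) := mul_le_mul_of_nonneg_left ih (by norm_num)
      _ = _ := by ring

theorem psi_lb (hG : StG) {m k N : ℕ} (hm : 2 ≤ m)
    (hpi : (m : ℝ) / (2 * Real.log m) ≤ Nat.primeCounting m) (hk : 1 ≤ k) (hN : m ^ k ≤ N) :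
    (Real.sqrt m) ^ k ≤ (2 * k * Real.log m / Real.sqrt m) ^ k * Psi N m := by
  have h1 := hG m k N hk hN
  have hm0 : (0 : ℝ) < m := by exact_mod_cast (by omega : 0 < m)
  have hl : 0 < Real.log m := Real.log_pos (by exact_mod_cast hm)
  have hs : 0 < Real.sqrt m := Real.sqrt_pos.mpr hm0
  have hk0 : (0 : ℝ) < k := by exact_mod_cast hk
  have h2 : ((m : ℝ) / (2 * Real.log m) / k) ^ k ≤ Psi N m :=
    (pow_le_pow_left₀ (by positivity) (div_le_div_of_nonneg_right hpi hk0.le) k).trans h1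
  calc (Real.sqrt m) ^ k
      = (2 * k * Real.log m / Real.sqrt m * ((m : ℝ) / (2 * Real.log m) / k)) ^ k := by
        congr 1
        have e : 2 * k * Real.log m / Real.sqrt m * ((m : ℝ) / (2 * Real.log m) / k) =
            m / Real.sqrt m := by
          field_simp
        rw [e, Real.div_sqrt]
    _ = _ := mul_pow _ _ _
    _ ≤ _ := mul_le_mul_of_nonneg_left h2 (by positivity)

theorem q_le (hD : StD) (hG : StG) {x m q : ℕ} (hx : 2 ≤ x) (hm : 2 ≤ m)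
    (hpi : (m : ℝ) / (2 * Real.log m) ≤ Nat.primeCounting m) (hmx : m ≤ x)
    (hlog : 36 * Real.log x ^ 2 ≤ m) (hq : q.Prime) (hmq : m < q) (hDx : Dq q m ≤ x) :
    q ≤ x ^ 3 := by
  by_contra hcon
  push Not at hcon
  have hm0 : (0 : ℝ) < m := by exact_mod_cast (by omega : 0 < m)
  have hl : 0 < Real.log m := Real.log_pos (by exact_mod_cast hm)
  have hs : 0 < Real.sqrt m := Real.sqrt_pos.mpr hm0
  obtain ⟨k, hkdef⟩ : ∃ k, k = Nat.log m (x ^ 3) := ⟨_, rfl⟩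
  have hk3 : 3 ≤ k := by
    rw [hkdef]
    exact Nat.le_log_of_pow_le (by omega) (Nat.pow_le_pow_left hmx 3)
  have hx3 : x ^ 3 ≠ 0 := by positivity
  have hk1 : m ^ k ≤ x ^ 3 := by
    rw [hkdef]
    exact Nat.pow_log_le_self m hx3
  have hk2 : x ^ 3 < m ^ (k + 1) := by
    rw [hkdef]
    exact Nat.lt_pow_succ_log_self (by omega) _
  have h1 := psi_lb hG hm hpi (by omega) hk1
  have hklog : k * Real.log m ≤ 3 * Real.log x := by
    have h : Real.log ((m : ℝ) ^ k) ≤ Real.log ((x : ℝ) ^ 3) :=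
      Real.log_le_log (by positivity) (by exact_mod_cast hk1)
    rw [Real.log_pow, Real.log_pow] at h
    exact_mod_cast h
  have hr : 2 * k * Real.log m / Real.sqrt m ≤ 1 := by
    rw [div_le_one hs]
    have h6 : 6 * Real.log x ≤ Real.sqrt m := by
      apply Real.le_sqrt_of_sq_le
      nlinarith
    linarith
  have h2 : (Real.sqrt m) ^ k ≤ Psi (x ^ 3) m := by
    refine h1.trans ?_
    calc (2 * k * Real.log m / Real.sqrt m) ^ k * (Psi (x ^ 3) m : ℝ)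
        ≤ 1 * (Psi (x ^ 3) m : ℝ) :=
          mul_le_mul_of_nonneg_right (pow_le_one₀ (by positivity) hr) (by positivity)
      _ = _ := one_mul _
  have h3 : (Psi (x ^ 3) m : ℝ) ≤ x := by
    have e : Psi (x ^ 3) m ≤ x :=
      ((psi_mono (by omega)).trans (hD q m hq hmq)).trans hDx
    exact_mod_cast e
  have h4 : ((m : ℝ) ^ k) ≤ (x : ℝ) ^ 2 := by
    have h := pow_le_pow_left₀ (by positivity) (h2.trans h3) 2
    have e : ((Real.sqrt m) ^ k) ^ 2 = (m : ℝ) ^ k := by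
      rw [← pow_mul, mul_comm, pow_mul, Real.sq_sqrt hm0.le]
    rwa [e] at h
  have h5 : m ^ k ≤ x ^ 2 := by exact_mod_cast h4
  have h6 : x ^ 3 < x ^ 2 * m := by
    calc x ^ 3 < m ^ (k + 1) := hk2
      _ = m ^ k * m := pow_succ _ _
      _ ≤ x ^ 2 * m := Nat.mul_le_mul_right _ h5
  have h7 : x ^ 2 * m ≤ x ^ 2 * x := Nat.mul_le_mul_left _ hmx
  have h8 : x ^ 3 = x ^ 2 * x := pow_succ _ _
  omega

theorem caseB (hG : StG) {x m Q : ℕ} {C₀ U : ℝ} (hC₀ : 0 < C₀) (hx : 2 ≤ x) (hm : 2 ≤ m)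
    (hQ : 1 ≤ Q)
    (hpi : (m : ℝ) / (2 * Real.log m) ≤ Nat.primeCounting m)
    (hlog : 4096 * Real.log x ^ 2 ≤ m) (hQx : Q ≤ x ^ 3) (hN : m ^ 8 < 4 * Q ^ 2)
    (hU : U ≤ C₀ * ((4 * Q ^ 2 : ℕ) + (Q : ℝ) ^ 2) / (Q * Psi (4 * Q ^ 2) m)) :
    U ≤ 5 * C₀ / 2 * Real.sqrt m * (16 * Real.log m / Real.sqrt m) ^ 8 := by
  have hm0 : (0 : ℝ) < m := by exact_mod_cast (by omega : 0 < m)
  have hl : 0 < Real.log m := Real.log_pos (by exact_mod_cast hm)
  have hs : 0 < Real.sqrt m := Real.sqrt_pos.mpr hm0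
  have hQ0 : (0 : ℝ) < Q := by exact_mod_cast hQ
  have hx0 : (2 : ℝ) ≤ x := by exact_mod_cast hx
  obtain ⟨N, hNdef⟩ : ∃ N, N = 4 * Q ^ 2 := ⟨_, rfl⟩
  rw [← hNdef] at hN hU
  obtain ⟨k, hkdef⟩ : ∃ k, k = Nat.log m N := ⟨_, rfl⟩
  have hN0 : N ≠ 0 := by
    rw [hNdef]
    positivity
  have hk8 : 8 ≤ k := by
    rw [hkdef]
    exact Nat.le_log_of_pow_le (by omega) hN.le
  have hk1 : m ^ k ≤ N := by
    rw [hkdef]
    exact Nat.pow_log_le_self m hN0
  have hk2 : N < m ^ (k + 1) := by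
    rw [hkdef]
    exact Nat.lt_pow_succ_log_self (by omega) _
  have h1 := psi_lb hG hm hpi (by omega) hk1
  have hk0 : (0 : ℝ) < k := by exact_mod_cast (by omega : 0 < k)
  have hP : (0 : ℝ) < Psi N m := by
    have h : 0 < (2 * k * Real.log m / Real.sqrt m) ^ k := by positivity
    have h' : 0 < (Real.sqrt m) ^ k := by positivity
    by_contra hcon
    have := mul_nonpos_of_nonneg_of_nonpos h.le (not_lt.mp hcon)
    linarith
  obtain ⟨r, hr⟩ : ∃ r : ℝ, r = 2 * k * Real.log m / Real.sqrt m := ⟨_, rfl⟩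
  rw [← hr] at h1
  have hr0 : 0 < r := by
    rw [hr]
    positivity
  have hNr : (N : ℝ) = 4 * (Q : ℝ) ^ 2 := by
    rw [hNdef]
    push_cast
    ring
  -- the bound for the logarithm
  have hklog : k * Real.log m ≤ 8 * Real.log x := by
    have h : Real.log ((m : ℝ) ^ k) ≤ Real.log ((x : ℝ) ^ 8) := by
      refine Real.log_le_log (by positivity) ?_
      have e1 : (m : ℝ) ^ k ≤ N := by exact_mod_cast hk1
      refine e1.trans ?_
      rw [hNr]
      have e2 : (Q : ℝ) ≤ (x : ℝ) ^ 3 := by exact_mod_cast hQx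
      have e3 : (Q : ℝ) ^ 2 ≤ ((x : ℝ) ^ 3) ^ 2 := pow_le_pow_left₀ hQ0.le e2 2
      have e4 : (4 : ℝ) ≤ (x : ℝ) ^ 2 := by nlinarith
      calc 4 * (Q : ℝ) ^ 2 ≤ (x : ℝ) ^ 2 * ((x : ℝ) ^ 3) ^ 2 :=
            mul_le_mul e4 e3 (by positivity) (by positivity)
        _ = _ := by ring
    rw [Real.log_pow, Real.log_pow] at h
    exact_mod_cast h
  have hr4 : r ≤ 1 / 4 := by
    rw [hr, div_le_iff₀ hs]
    have h6 : 64 * Real.log x ≤ Real.sqrt m := by
      apply Real.le_sqrt_of_sq_le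
      nlinarith
    linarith
  have hr8 : r ^ k ≤ (16 * Real.log m / Real.sqrt m) ^ 8 := by
    have e1 : r ^ k = r ^ 8 * r ^ (k - 8) := by
      rw [← pow_add]
      congr 1
      omega
    have e2 : r ^ (k - 8) ≤ (1 / 4) ^ (k - 8) := pow_le_pow_left₀ hr0.le hr4 _
    have e3 := pow8 k hk8
    have e4 : r ^ 8 = (k : ℝ) ^ 8 * (2 * Real.log m / Real.sqrt m) ^ 8 := by
      rw [hr, ← mul_pow]
      congr 1
      ring
    have e5 : (k : ℝ) ^ 8 * (1 / 4) ^ (k - 8) ≤ 8 ^ 8 := by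
      rw [one_div, inv_pow, ← div_eq_mul_inv, div_le_iff₀ (by positivity)]
      exact e3
    rw [e1, e4]
    calc (k : ℝ) ^ 8 * (2 * Real.log m / Real.sqrt m) ^ 8 * r ^ (k - 8)
        ≤ (k : ℝ) ^ 8 * (2 * Real.log m / Real.sqrt m) ^ 8 * (1 / 4) ^ (k - 8) :=
          mul_le_mul_of_nonneg_left e2 (by positivity)
      _ = ((k : ℝ) ^ 8 * (1 / 4) ^ (k - 8)) * (2 * Real.log m / Real.sqrt m) ^ 8 := by ring
      _ ≤ 8 ^ 8 * (2 * Real.log m / Real.sqrt m) ^ 8 :=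
          mul_le_mul_of_nonneg_right e5 (by positivity)
      _ = _ := by
          rw [← mul_pow]
          congr 1
          ring
  have h2Q : 2 * (Q : ℝ) ≤ (Real.sqrt m) ^ (k + 1) := by
    have e1 : (2 * (Q : ℝ)) ^ 2 ≤ ((Real.sqrt m) ^ (k + 1)) ^ 2 := by
      have e2 : ((Real.sqrt m) ^ (k + 1)) ^ 2 = (m : ℝ) ^ (k + 1) := by
        rw [← pow_mul, mul_comm, pow_mul, Real.sq_sqrt hm0.le]
      rw [e2]
      have e3 : (N : ℝ) ≤ (m : ℝ) ^ (k + 1) := by exact_mod_cast hk2.le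
      calc (2 * (Q : ℝ)) ^ 2 = N := by rw [hNr]; ring
        _ ≤ _ := e3
    exact (pow_le_pow_iff_left₀ (by positivity) (by positivity) two_ne_zero).mp e1
  refine hU.trans ?_
  have e0 : C₀ * ((N : ℝ) + (Q : ℝ) ^ 2) / (Q * Psi N m) = 5 * C₀ / 2 * (2 * Q) / Psi N m := by
    rw [hNr]
    field_simp
    ring
  rw [e0, div_le_iff₀ hP]
  calc 5 * C₀ / 2 * (2 * Q) ≤ 5 * C₀ / 2 * (Real.sqrt m) ^ (k + 1) :=
        mul_le_mul_of_nonneg_left h2Q (by positivity)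
    _ = 5 * C₀ / 2 * Real.sqrt m * (Real.sqrt m) ^ k := by rw [pow_succ]; ring
    _ ≤ 5 * C₀ / 2 * Real.sqrt m * (r ^ k * Psi N m) :=
        mul_le_mul_of_nonneg_left h1 (by positivity)
    _ = 5 * C₀ / 2 * Real.sqrt m * r ^ k * Psi N m := by ring
    _ ≤ 5 * C₀ / 2 * Real.sqrt m * (16 * Real.log m / Real.sqrt m) ^ 8 * Psi N m :=
        mul_le_mul_of_nonneg_right (mul_le_mul_of_nonneg_left hr8 (by positivity)) hP.le

theorem mI : StC → StD → StE → StF → StG → StH → StI := by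
  intro hC hD hE hF hG hH
  obtain ⟨C₀, hC₀, hE⟩ := hE
  obtain ⟨c, hc, mF, hF⟩ := hF 8
  obtain ⟨mH, -, hH⟩ := hH
  refine ⟨4096 + 5 * C₀ / c + 18 * C₀ * (2 ^ 32 * 40320), max (max mF mH) 2, by positivity, ?_⟩
  intro x m hx hm hlogC T hT
  have hmF : mF ≤ m := le_trans (le_trans (le_max_left _ _) (le_max_left _ _)) hm
  have hmH : mH ≤ m := le_trans (le_trans (le_max_right _ _) (le_max_left _ _)) hm
  have hm2 : 2 ≤ m := le_trans (le_max_right _ _) hm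
  have hpi := hH m hmH
  have hm0 : (0 : ℝ) < m := by exact_mod_cast (by omega : 0 < m)
  have hl : 0 < Real.log m := Real.log_pos (by exact_mod_cast hm2)
  have hs : 0 < Real.sqrt m := Real.sqrt_pos.mpr hm0
  have hlx0 : 0 ≤ Real.log x := Real.log_nonneg (by exact_mod_cast (by omega : 1 ≤ x))
  have hlog : 4096 * Real.log x ^ 2 ≤ m := by
    refine le_trans ?_ hlogC
    refine mul_le_mul_of_nonneg_right ?_ (by positivity)
    have : 0 ≤ 5 * C₀ / c + 18 * C₀ * (2 ^ 32 * 40320) := by positivity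
    linarith
  have hlog36 : 36 * Real.log x ^ 2 ≤ m := by nlinarith [sq_nonneg (Real.log x)]
  -- the case of large `m`
  have hDm : ∀ q ∈ T, m ≤ Dq q m := by
    intro q hq
    obtain ⟨⟨hqp, hmq, _⟩, _⟩ := hT q hq
    exact ((psi_self m).trans (psi_mono (by omega))).trans (hD q m hqp hmq)
  by_cases hmx : m ≤ x
  swap
  · have : T = ∅ := by
      rw [Finset.eq_empty_iff_forall_notMem]
      intro q hq
      have h1 := hDm q hq
      have h2 := (hT q hq).2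
      omega
    rw [this, Finset.sum_empty]
    positivity
  -- properties of the elements
  have hqx : ∀ q ∈ T, q ≤ x ^ 3 := fun q hq =>
    q_le hD hG hx hm2 hpi hmx hlog36 (hT q hq).1.1 (hT q hq).1.2.1 (hT q hq).2
  have hqm : ∀ q ∈ T, m * (m + 1) < q := fun q hq => hC q m (hT q hq).1
  obtain ⟨g, hg⟩ : ∃ g : ℕ → ℕ, g = fun q => Nat.log 2 (q - 1) := ⟨_, rfl⟩
  have hg1 : ∀ q ∈ T, 2 ^ g q < q ∧ q ≤ 2 * 2 ^ g q := by
    intro q hq
    have h1 := hqm q hq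
    have hq1 : q - 1 ≠ 0 := by nlinarith [Nat.sub_add_cancel (by nlinarith : 1 ≤ q)]
    have h2 : 2 ^ g q ≤ q - 1 := by
      rw [hg]
      exact Nat.pow_log_le_self 2 hq1
    have h3 : q - 1 < 2 ^ (g q + 1) := by
      rw [hg]
      exact Nat.lt_pow_succ_log_self (by norm_num) _
    rw [pow_succ] at h3
    omega
  obtain ⟨J, hJ⟩ : ∃ J : Finset ℕ, J = T.image g := ⟨_, rfl⟩
  obtain ⟨U, hUdef⟩ : ∃ U : ℕ → ℝ, U = fun j =>
    ∑ q ∈ (Finset.Ioc (2 ^ j) (2 * 2 ^ j)).filter (fun q => Bad q m), 1 / (Dq q m : ℝ) := ⟨_, rfl⟩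
  have hsum : ∑ q ∈ T, 1 / (Dq q m : ℝ) ≤ ∑ j ∈ J, U j := by
    rw [← Finset.sum_fiberwise_of_maps_to (s := T) (t := J) (g := g)
      (fun q hq => by rw [hJ]; exact Finset.mem_image_of_mem g hq)]
    refine Finset.sum_le_sum fun j _ => ?_
    rw [hUdef]
    refine Finset.sum_le_sum_of_subset_of_nonneg ?_ (fun _ _ _ => by positivity)
    intro q hq
    rw [Finset.mem_filter] at hq
    obtain ⟨hq, rfl⟩ := hq
    rw [Finset.mem_filter, Finset.mem_Ioc]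
    exact ⟨hg1 q hq, (hT q hq).1⟩
  have hJx : ∀ j ∈ J, 2 ^ j < x ^ 3 := by
    intro j hj
    rw [hJ, Finset.mem_image] at hj
    obtain ⟨q, hq, rfl⟩ := hj
    exact (hg1 q hq).1.trans_le (hqx q hq)
  have hJm : ∀ j ∈ J, m ^ 2 < 2 * 2 ^ j := by
    intro j hj
    rw [hJ, Finset.mem_image] at hj
    obtain ⟨q, hq, rfl⟩ := hj
    have h1 := hqm q hq
    have h2 := (hg1 q hq).2
    nlinarith
  have hUE : ∀ j : ℕ, U j ≤ C₀ * ((4 * (2 ^ j) ^ 2 : ℕ) + ((2 ^ j : ℕ) : ℝ) ^ 2) /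
      ((2 ^ j : ℕ) * Psi (4 * (2 ^ j) ^ 2) m) := by
    intro j
    rw [hUdef]
    exact hE (2 ^ j) (4 * (2 ^ j) ^ 2) m Nat.one_le_two_pow (Nat.succ_le_of_lt (by positivity)) (by omega)
  -- the two cases
  have hUA : ∀ j ∈ J, 4 * (2 ^ j) ^ 2 ≤ m ^ 8 → U j ≤ 5 * C₀ / (4 * c) * (1 / 2) ^ j := by
    intro j _ hA
    have h1 := hF m hmF (4 * (2 ^ j) ^ 2) (Nat.succ_le_of_lt (by positivity)) hA
    refine (hUE j).trans ?_
    have hP : 0 < c * ((4 * (2 ^ j) ^ 2 : ℕ) : ℝ) := by positivity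
    calc C₀ * ((4 * (2 ^ j) ^ 2 : ℕ) + ((2 ^ j : ℕ) : ℝ) ^ 2) /
          ((2 ^ j : ℕ) * Psi (4 * (2 ^ j) ^ 2) m)
        ≤ C₀ * ((4 * (2 ^ j) ^ 2 : ℕ) + ((2 ^ j : ℕ) : ℝ) ^ 2) /
          ((2 ^ j : ℕ) * (c * ((4 * (2 ^ j) ^ 2 : ℕ) : ℝ))) := by
          refine div_le_div_of_nonneg_left (by positivity) (by positivity) ?_
          exact mul_le_mul_of_nonneg_left h1 (by positivity)
      _ = 5 * C₀ / (4 * c) * (1 / 2) ^ j := by
          rw [one_div, inv_pow]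
          push_cast
          field_simp
          ring
  have hUB : ∀ j ∈ J, ¬ 4 * (2 ^ j) ^ 2 ≤ m ^ 8 →
      U j ≤ 5 * C₀ / 2 * Real.sqrt m * (16 * Real.log m / Real.sqrt m) ^ 8 := by
    intro j hj hB
    exact caseB hG hC₀ hx hm2 Nat.one_le_two_pow hpi hlog (hJx j hj).le (not_le.mp hB) (hUE j)
  have hV0 : 0 ≤ 5 * C₀ / 2 * Real.sqrt m * (16 * Real.log m / Real.sqrt m) ^ 8 := by positivity
  have hUall : ∀ j ∈ J, U j ≤ 5 * C₀ / (4 * c) * (1 / 2) ^ j +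
      5 * C₀ / 2 * Real.sqrt m * (16 * Real.log m / Real.sqrt m) ^ 8 := by
    intro j hj
    by_cases hA : 4 * (2 ^ j) ^ 2 ≤ m ^ 8
    · exact (hUA j hj hA).trans (le_add_of_nonneg_right hV0)
    · exact (hUB j hj hA).trans (le_add_of_nonneg_left (by positivity))
  -- the number of the `j`
  have hcard : (J.card : ℝ) ≤ 7 * Real.log x := by
    have h1 : J ⊆ Finset.range (Nat.log 2 (x ^ 3) + 1) := by
      intro j hj
      rw [Finset.mem_range, Nat.lt_succ_iff]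
      exact Nat.le_log_of_pow_le (by norm_num) (hJx j hj).le
    have h2 : J.card ≤ Nat.log 2 (x ^ 3) + 1 := by
      have := Finset.card_le_card h1
      rwa [Finset.card_range] at this
    have h3 : (Nat.log 2 (x ^ 3) : ℝ) * Real.log 2 ≤ 3 * Real.log x := by
      have h : Real.log ((2 : ℝ) ^ (Nat.log 2 (x ^ 3))) ≤ Real.log ((x : ℝ) ^ 3) := by
        refine Real.log_le_log (by positivity) ?_
        exact_mod_cast Nat.pow_log_le_self 2 (by positivity : x ^ 3 ≠ 0)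
      rw [Real.log_pow, Real.log_pow] at h
      exact_mod_cast h
    have h4 : (0.69 : ℝ) < Real.log 2 := by
      have := Real.log_two_gt_d9
      linarith
    have h5 : Real.log 2 ≤ Real.log x := Real.log_le_log (by norm_num) (by exact_mod_cast hx)
    have h6 : (J.card : ℝ) ≤ (Nat.log 2 (x ^ 3) : ℝ) + 1 := by exact_mod_cast h2
    have h7 : (Nat.log 2 (x ^ 3) : ℝ) * 0.69 ≤ 3 * Real.log x :=
      le_trans (mul_le_mul_of_nonneg_left h4.le (Nat.cast_nonneg _)) h3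
    linarith
  have hlxm : Real.log x ≤ Real.sqrt m := by
    apply Real.le_sqrt_of_sq_le
    nlinarith [sq_nonneg (Real.log x)]
  -- the geometric sum
  have hgeo : ∑ j ∈ J, (1 / 2 : ℝ) ^ j ≤ 4 / (m : ℝ) ^ 2 := by
    rcases J.eq_empty_or_nonempty with hJe | hJn
    · rw [hJe, Finset.sum_empty]
      positivity
    · refine (geo (J := J) (j₀ := J.min' hJn) (fun j hj => J.min'_le j hj)).trans ?_
      have h1 := hJm _ (J.min'_mem hJn)
      have h2 : (m : ℝ) ^ 2 < 2 * 2 ^ (J.min' hJn) := by exact_mod_cast h1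
      rw [one_div, inv_pow, ← div_eq_mul_inv, div_le_div_iff₀ (by positivity) (by positivity)]
      linarith
  -- the logarithmic factor
  have hl8 : Real.log m ^ 8 ≤ 40320 * m := by
    have h := Real.pow_div_factorial_le_exp (Real.log m) hl.le 8
    rw [Real.exp_log hm0] at h
    have e : ((Nat.factorial 8 : ℕ) : ℝ) = 40320 := by norm_num [Nat.factorial]
    rw [e, div_le_iff₀ (by norm_num)] at h
    linarith
  have hV : 5 * C₀ / 2 * Real.sqrt m * (16 * Real.log m / Real.sqrt m) ^ 8 * (7 * Real.sqrt m) ≤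
      18 * C₀ * (2 ^ 32 * 40320) / (m : ℝ) ^ 2 := by
    have e1 : Real.sqrt m ^ 8 = (m : ℝ) ^ 4 := by
      rw [show (8 : ℕ) = 2 * 4 from rfl, pow_mul, Real.sq_sqrt hm0.le]
    have e2 : 5 * C₀ / 2 * Real.sqrt m * (16 * Real.log m / Real.sqrt m) ^ 8 * (7 * Real.sqrt m) =
        35 / 2 * C₀ * (Real.sqrt m) ^ 2 * (2 ^ 32 * Real.log m ^ 8) / (m : ℝ) ^ 4 := by
      rw [div_pow, mul_pow, e1]
      ring
    rw [e2, Real.sq_sqrt hm0.le, div_le_div_iff₀ (by positivity) (by positivity)]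
    have e3 : 0 ≤ C₀ * (m : ℝ) ^ 3 := by positivity
    have e4 : C₀ * (m : ℝ) ^ 3 * Real.log m ^ 8 ≤ C₀ * (m : ℝ) ^ 3 * (40320 * m) :=
      mul_le_mul_of_nonneg_left hl8 e3
    have e5 : 0 ≤ C₀ * (m : ℝ) ^ 4 := by positivity
    nlinarith
  calc ∑ q ∈ T, 1 / (Dq q m : ℝ) ≤ ∑ j ∈ J, U j := hsum
    _ ≤ ∑ j ∈ J, (5 * C₀ / (4 * c) * (1 / 2) ^ j +
        5 * C₀ / 2 * Real.sqrt m * (16 * Real.log m / Real.sqrt m) ^ 8) :=
        Finset.sum_le_sum hUall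
    _ = 5 * C₀ / (4 * c) * ∑ j ∈ J, (1 / 2 : ℝ) ^ j +
        5 * C₀ / 2 * Real.sqrt m * (16 * Real.log m / Real.sqrt m) ^ 8 * J.card := by
        rw [Finset.sum_add_distrib, Finset.sum_const, nsmul_eq_mul, Finset.mul_sum]
        ring
    _ ≤ 5 * C₀ / (4 * c) * (4 / (m : ℝ) ^ 2) +
        5 * C₀ / 2 * Real.sqrt m * (16 * Real.log m / Real.sqrt m) ^ 8 * (7 * Real.sqrt m) := by
        refine add_le_add (mul_le_mul_of_nonneg_left hgeo (by positivity))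
          (mul_le_mul_of_nonneg_left ?_ hV0)
        linarith
    _ ≤ 5 * C₀ / (4 * c) * (4 / (m : ℝ) ^ 2) + 18 * C₀ * (2 ^ 32 * 40320) / (m : ℝ) ^ 2 :=
        add_le_add_right hV _
    _ = (5 * C₀ / c + 18 * C₀ * (2 ^ 32 * 40320)) / (m : ℝ) ^ 2 := by
        field_simp
    _ ≤ (4096 + 5 * C₀ / c + 18 * C₀ * (2 ^ 32 * 40320)) / (m : ℝ) ^ 2 := by
        refine div_le_div_of_nonneg_right ?_ (by positivity)
        linarith

end Pool.Agent.Helper84.HL
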